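import Pool.Agent.Q276.ITM.Main

/-! MP_d0d08e_co, Q1: the complete classification. -/

namespace Pool.Agent.Results.MP_d0d08e_co.Classification

open Pool.Agent.H175R2 Pool.Agent.Q276.ITM

/-- For a finite graph `H`, clique-width is bounded on the class of finite graphs that do not
contain `H` as an induced topological minor if and only if `H` is (isomorphic to) an induced
subgraph of the path `P₄`, of the paw or of the diamond. -/
theorem result (W : Type) [Finite W] (H : SimpleGraph W) :
    (∃ c : ℕ, ∀ (V : Type) [Finite V] (G : SimpleGraph V),
      ¬ (∃ S : Set V, IsSubdivision H (G.induce S)) → cliqueWidth G ≤ c) ↔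
    (Nonempty (H ↪g P4) ∨ Nonempty (H ↪g paw) ∨ Nonempty (H ↪g diamond)) :=
  classification H

end Pool.Agent.Results.MP_d0d08e_co.Classification
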